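import Pool.Agent.Helper6.EC_B.Goals

/-! Packet T1: Fubini and translation. -/

open MeasureTheory Filter Topology Set

noncomputable section

namespace EC237.PB.PkT1

theorem cnonneg {N : ℝ → ℝ} {C : ℝ} (hC : ∀ z, |N z| ≤ C * Real.exp (z / 8)) : 0 ≤ C := by
  have h := hC 0
  simp only [zero_div, Real.exp_zero, mul_one] at h
  exact (abs_nonneg _).trans h

theorem expIic (Y : ℝ) : IntegrableOn (fun y : ℝ => Real.exp (y / 4)) (Iic Y) := by
  have h := integrableOn_exp_mul_Iic (a := 1 / 4) (by norm_num) Y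
  refine h.congr_fun (fun y _ => ?_) measurableSet_Iic
  show Real.exp (1 / 4 * y) = Real.exp (y / 4)
  congr 1
  ring

theorem exp8 {ρ : Measure ℝ} (h : Integrable (fun a => Real.exp (|a| / 2)) ρ) :
    Integrable (fun a : ℝ => Real.exp (|a| / 8)) ρ := by
  refine h.mono' (by fun_prop) (ae_of_all _ fun a => ?_)
  rw [Real.norm_eq_abs, abs_of_pos (Real.exp_pos _)]
  apply Real.exp_le_exp.2
  have := abs_nonneg a
  linarith

/-- Joint integrability. -/
theorem joint {ρ : Measure ℝ} [IsProbabilityMeasure ρ] {N : ℝ → ℝ}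
    (he : Integrable (fun a => Real.exp (|a| / 2)) ρ) (hm : Measurable N) {C : ℝ}
    (hC : ∀ z, |N z| ≤ C * Real.exp (z / 8)) (ε : ℝ) (hε : ε = 1 ∨ ε = -1) (Y : ℝ) :
    Integrable (fun q : ℝ × (ℝ × ℝ) => N (q.1 + ε * q.2.1) * N (q.1 + ε * q.2.2))
      ((volume.restrict (Iic Y)).prod (ρ.prod ρ)) := by
  have hC0 := cnonneg hC
  have h1 : Integrable (fun q : ℝ × (ℝ × ℝ) => (C ^ 2 * Real.exp (q.1 / 4)) *
      (Real.exp (|q.2.1| / 8) * Real.exp (|q.2.2| / 8)))
      ((volume.restrict (Iic Y)).prod (ρ.prod ρ)) :=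
    Integrable.mul_prod ((expIic Y).const_mul _) (Integrable.mul_prod (exp8 he) (exp8 he))
  refine h1.mono' ?_ (ae_of_all _ fun q => ?_)
  · exact ((hm.comp (by fun_prop)).mul (hm.comp (by fun_prop))).aestronglyMeasurable
  · have key : ∀ a : ℝ, |N (q.1 + ε * a)| ≤ C * (Real.exp (q.1 / 8) * Real.exp (|a| / 8)) := by
      intro a
      refine (hC _).trans (mul_le_mul_of_nonneg_left ?_ hC0)
      rw [← Real.exp_add]
      apply Real.exp_le_exp.2
      have h2 : ε * a ≤ |a| := by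
        rcases hε with rfl | rfl
        · rw [one_mul]; exact le_abs_self a
        · rw [neg_one_mul]; exact neg_le_abs a
      linarith
    rw [Real.norm_eq_abs, abs_mul]
    refine (mul_le_mul (key _) (key _) (abs_nonneg _) (by positivity)).trans (le_of_eq ?_)
    have h3 : Real.exp (q.1 / 4) = Real.exp (q.1 / 8) * Real.exp (q.1 / 8) := by
      rw [← Real.exp_add]; congr 1; ring
    rw [h3]
    ring

theorem single {N : ℝ → ℝ} (hm : Measurable N) {C : ℝ}
    (hC : ∀ z, |N z| ≤ C * Real.exp (z / 8)) (a b Y : ℝ) :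
    IntegrableOn (fun y : ℝ => N (y - a) * N (y - b)) (Iic Y) := by
  have hC0 := cnonneg hC
  refine ((expIic Y).const_mul (C ^ 2 * Real.exp (-(a + b) / 8))).mono' ?_ (ae_of_all _ fun y => ?_)
  · exact ((hm.comp (by fun_prop)).mul (hm.comp (by fun_prop))).aestronglyMeasurable
  · rw [Real.norm_eq_abs, abs_mul]
    refine (mul_le_mul (hC _) (hC _) (abs_nonneg _) (by positivity)).trans (le_of_eq ?_)
    have h3 : Real.exp ((y - a) / 8) * Real.exp ((y - b) / 8) =
        Real.exp (-(a + b) / 8) * Real.exp (y / 4) := by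
      rw [← Real.exp_add, ← Real.exp_add]; congr 1; ring
    calc C * Real.exp ((y - a) / 8) * (C * Real.exp ((y - b) / 8))
        = C ^ 2 * (Real.exp ((y - a) / 8) * Real.exp ((y - b) / 8)) := by ring
      _ = _ := by rw [h3]; ring

theorem shift (g : ℝ → ℝ) (c Y : ℝ) :
    ∫ y in Iic Y, g (y + c) = ∫ y in Iic (Y + c), g y := by
  have h := (measurePreserving_add_right (volume : Measure ℝ) c).setIntegral_preimage_emb
    (measurableEmbedding_addRight c) g (Iic (Y + c))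
  rw [Set.preimage_add_const_Iic, add_sub_cancel_right] at h
  exact h

theorem fy_eq {N : ℝ → ℝ} (hm : Measurable N) {C : ℝ}
    (hC : ∀ z, |N z| ≤ C * Real.exp (z / 8)) (Y : ℝ) (p : ℝ × ℝ) :
    FY N Y p = (∫ y in Iic Y, N (y + 1 * p.1) * N (y + 1 * p.2)) -
      ∫ y in Iic Y, N (y + (-1) * p.1) * N (y + (-1) * p.2) := by
  have h1 : ∫ y in Iic Y, N (y + 1 * p.1) * N (y + 1 * p.2) =
      ∫ y in Iic (Y + p.1 + p.2), N (y - p.1) * N (y - p.2) := by
    rw [add_assoc, ← shift (fun y => N (y - p.1) * N (y - p.2)) (p.1 + p.2) Y]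
    refine setIntegral_congr_fun measurableSet_Iic fun y _ => ?_
    show N (y + 1 * p.1) * N (y + 1 * p.2) = N (y + (p.1 + p.2) - p.1) * N (y + (p.1 + p.2) - p.2)
    rw [show y + (p.1 + p.2) - p.1 = y + 1 * p.2 by ring,
      show y + (p.1 + p.2) - p.2 = y + 1 * p.1 by ring, mul_comm]
  have h2 : ∫ y in Iic Y, N (y + (-1) * p.1) * N (y + (-1) * p.2) =
      ∫ y in Iic Y, N (y - p.1) * N (y - p.2) := by
    refine setIntegral_congr_fun measurableSet_Iic fun y _ => ?_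
    show N (y + (-1) * p.1) * N (y + (-1) * p.2) = N (y - p.1) * N (y - p.2)
    rw [show y + (-1) * p.1 = y - p.1 by ring, show y + (-1) * p.2 = y - p.2 by ring]
  rw [h1, h2, FY]
  exact (intervalIntegral.integral_Iic_sub_Iic (single hm hC _ _ _) (single hm hC _ _ _)).symm

theorem sq_eq (ρ : Measure ℝ) [IsProbabilityMeasure ρ] (N : ℝ → ℝ) (ε y : ℝ) :
    (∫ a, N (y + ε * a) ∂ρ) ^ 2 =
      ∫ p : ℝ × ℝ, N (y + ε * p.1) * N (y + ε * p.2) ∂(ρ.prod ρ) := by
  rw [integral_prod_mul (fun a => N (y + ε * a)) (fun a => N (y + ε * a)), sq]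

/-- Packet T1. -/
theorem thm : G_T1 := by
  intro ρ N h
  have := h.prob
  obtain ⟨C, hC⟩ := h.b1
  have hjp : ∀ Y, Integrable (fun q : ℝ × (ℝ × ℝ) => N (q.1 + 1 * q.2.1) * N (q.1 + 1 * q.2.2))
      ((volume.restrict (Iic Y)).prod (ρ.prod ρ)) := joint h.exp h.meas hC 1 (Or.inl rfl)
  have hjm : ∀ Y, Integrable (fun q : ℝ × (ℝ × ℝ) => N (q.1 + (-1) * q.2.1) *
      N (q.1 + (-1) * q.2.2)) ((volume.restrict (Iic Y)).prod (ρ.prod ρ)) :=
    joint h.exp h.meas hC (-1) (Or.inr rfl)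
  have hip : ∀ Y, Integrable (fun p : ℝ × ℝ => ∫ y in Iic Y, N (y + 1 * p.1) * N (y + 1 * p.2))
      (ρ.prod ρ) := fun Y => (hjp Y).integral_prod_right
  have him : ∀ Y, Integrable (fun p : ℝ × ℝ => ∫ y in Iic Y, N (y + (-1) * p.1) *
      N (y + (-1) * p.2)) (ρ.prod ρ) := fun Y => (hjm Y).integral_prod_right
  have hfy : ∀ Y, FY N Y = fun p => (∫ y in Iic Y, N (y + 1 * p.1) * N (y + 1 * p.2)) -
      ∫ y in Iic Y, N (y + (-1) * p.1) * N (y + (-1) * p.2) := fun Y =>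
    funext fun p => fy_eq h.meas hC Y p
  refine ⟨fun Y => ?_, fun Y => ?_⟩
  · rw [hfy]
    exact (hip Y).sub (him Y)
  · have e1 : (∫ y in Iic Y, (∫ a, N (y - a) ∂ρ) ^ 2) =
        ∫ p : ℝ × ℝ, (∫ y in Iic Y, N (y + (-1) * p.1) * N (y + (-1) * p.2)) ∂(ρ.prod ρ) := by
      rw [← integral_integral_swap (f := fun (y : ℝ) (p : ℝ × ℝ) =>
        N (y + (-1) * p.1) * N (y + (-1) * p.2)) (hjm Y)]
      refine setIntegral_congr_fun measurableSet_Iic fun y _ => ?_
      show (∫ a, N (y - a) ∂ρ) ^ 2 = _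
      rw [← sq_eq ρ N (-1) y]
      congr 2
      funext a
      rw [show y + (-1) * a = y - a by ring]
    have e2 : (∫ y in Iic Y, (∫ a, N (y + a) ∂ρ) ^ 2) =
        ∫ p : ℝ × ℝ, (∫ y in Iic Y, N (y + 1 * p.1) * N (y + 1 * p.2)) ∂(ρ.prod ρ) := by
      rw [← integral_integral_swap (f := fun (y : ℝ) (p : ℝ × ℝ) =>
        N (y + 1 * p.1) * N (y + 1 * p.2)) (hjp Y)]
      refine setIntegral_congr_fun measurableSet_Iic fun y _ => ?_
      show (∫ a, N (y + a) ∂ρ) ^ 2 = _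
      rw [← sq_eq ρ N 1 y]
      congr 2
      funext a
      rw [show y + 1 * a = y + a by ring]
    rw [e1, e2, hfy, integral_sub (hip Y) (him Y)]
    ring

end EC237.PB.PkT1
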